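import Pool.Agent.L5lead.NC.Defs
import Pool.Agent.L5helper54.DC.Sc

/-!
Nearly cubic project, part G6: the base net.
-/

set_option linter.unusedSectionVars false

namespace L5helper42.NC

open Finset MvPolynomial L5helper59.DC L5helper54.DC L5lead.NC

theorem prod_omega {A : Type*} [CommRing A] [IsDomain A] {r : ℕ} (hr : 0 < r) {ζ : A}
    (h : IsPrimitiveRoot ζ r) (U V : A) :
    ∏ p : Fin r, (V + ζ ^ (p : ℕ) * U) = V ^ r - (-U) ^ r := by
  classical
  rw [h.pow_sub_pow_eq_prod_sub_mul V (-U) hr]
  have himg : (univ : Finset (Fin r)).image (fun p : Fin r => ζ ^ (p : ℕ)) =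
      Polynomial.nthRootsFinset r (1 : A) := by
    apply eq_of_subset_of_card_le
    · intro x hx
      obtain ⟨p, _, rfl⟩ := mem_image.1 hx
      rw [Polynomial.mem_nthRootsFinset hr, ← pow_mul, mul_comm, pow_mul, h.pow_eq_one, one_pow]
    · rw [h.card_nthRootsFinset, card_image_of_injective _ (fun p q hpq =>
        Fin.ext (h.pow_inj p.2 q.2 hpq)), card_univ, Fintype.card_fin]
  rw [← himg, prod_image (fun p _ q _ hpq => Fin.ext (h.pow_inj p.2 q.2 hpq))]
  refine prod_congr rfl fun p _ => ?_
  ring

section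

variable {β : Type} [Fintype β] [DecidableEq β] {R : Type} [CommRing R] (s : ℕ)

/-- the rows of the internal rows, part one -/
def bu (x : R) : Fin (s + 1) ⊕ β → R :=
  Sum.elim (fun q => if q = Fin.last s then x else 1) (fun _ => 0)

/-- part two -/
def bv : Fin (s + 1) ⊕ β → R := Sum.elim (fun _ => 0) (fun _ => 1)

/-- the port rows -/
def bw : Fin (s + 1) ⊕ β → R := Sum.elim (fun _ => 1) (fun _ => 0)

theorem sc_vw (k : ℕ) (T : Finset β) :
    sc (lin (bv s) ^ (s + 1) * lin (bw s : Fin (s + 1) ⊕ β → R) ^ k) (univ.disjSum T) =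
      if k = s + 1 ∧ T.card = s + 1 then (((s + 1).factorial : R)) ^ 2 else 0 := by
  rw [sc_mul, sum_eq_single ((∅ : Finset (Fin (s + 1))).disjSum T)]
  · have h1 : (univ : Finset (Fin (s + 1))).disjSum T \ (∅ : Finset (Fin (s + 1))).disjSum T =
        univ.disjSum ∅ := by
      ext x
      rcases x with x | x <;> simp
    rw [h1, sc_lin_pow, sc_lin_pow, card_disjSum, card_disjSum, card_univ, Fintype.card_fin,
      card_empty, zero_add, card_empty, add_zero, prod_disjSum, prod_disjSum]
    simp only [bv, bw, Sum.elim_inl, Sum.elim_inr, prod_const_one, prod_empty, mul_one]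
    by_cases h2 : T.card = s + 1
    · by_cases h3 : k = s + 1
      · subst h3
        rw [if_pos h2, if_pos rfl, if_pos ⟨rfl, h2⟩, sq]
      · rw [if_neg (fun h : s + 1 = k => h3 h.symm),
          if_neg (fun h : k = s + 1 ∧ T.card = s + 1 => h3 h.1), mul_zero]
    · rw [if_neg h2, if_neg (fun h : k = s + 1 ∧ T.card = s + 1 => h2 h.2), zero_mul]
  · intro C' hC' hne
    rw [mem_powerset] at hC'
    rw [sc_lin_pow, sc_lin_pow]
    by_cases h1 : ∃ q, Sum.inl q ∈ C'
    · obtain ⟨q, hq⟩ := h1
      rw [prod_eq_zero hq (by simp [bv]), mul_zero, ite_self, zero_mul]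
    · have h2 : ∃ t ∈ T, Sum.inr t ∉ C' := by
        by_contra h2
        push Not at h2
        apply hne
        ext x
        rcases x with x | x
        · constructor
          · intro hx
            exact absurd ⟨x, hx⟩ h1
          · intro hx
            simp at hx
        · constructor
          · intro hx
            have := hC' hx
            simpa using this
          · intro hx
            exact h2 x (by simpa using hx)
      obtain ⟨t, ht, htC⟩ := h2
      rw [prod_eq_zero (i := Sum.inr t) (s := univ.disjSum T \ C')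
        (mem_sdiff.2 ⟨by simpa using ht, htC⟩) (by simp [bw]), mul_zero, ite_self, mul_zero]
  · intro h
    exfalso
    apply h
    rw [mem_powerset]
    intro x hx
    rcases x with x | x <;> simp at hx ⊢
    exact hx

theorem sc_uw (x : R) (k : ℕ) (T : Finset β) :
    sc (lin (bu s x) ^ (s + 1) * lin (bw s : Fin (s + 1) ⊕ β → R) ^ k) (univ.disjSum T) =
      if k = 0 ∧ T = ∅ then (((s + 1).factorial : R)) * x else 0 := by
  rw [sc_mul]
  by_cases hT : T = ∅
  · subst hT
    rw [sum_eq_single (univ.disjSum ∅)]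
    · rw [sdiff_self, sc_lin_pow, sc_lin_pow, card_disjSum, card_univ, Fintype.card_fin,
        card_empty, add_zero, if_pos rfl, prod_disjSum, prod_empty, bot_eq_empty, prod_empty,
        card_empty, mul_one, mul_one]
      have h2 : ∏ i, (bu s x : Fin (s + 1) ⊕ β → R) (Sum.inl i) = x := by
        rw [prod_eq_single (Fin.last s)]
        · simp [bu]
        · intro b _ hb
          simp [bu, hb]
        · intro h
          exact absurd (mem_univ _) h
      rw [h2]
      by_cases h3 : k = 0
      · subst h3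
        simp
      · rw [if_neg (fun h : 0 = k => h3 h.symm), if_neg (fun h => h3 h.1), mul_zero]
    · intro C' hC' hne
      rw [mem_powerset] at hC'
      rw [sc_lin_pow, if_neg, zero_mul]
      intro h
      apply hne
      apply eq_of_subset_of_card_le hC'
      rw [card_disjSum, card_univ, Fintype.card_fin, card_empty, h]
    · intro h
      exact absurd (mem_powerset_self _) h
  · rw [if_neg (fun h => hT h.2)]
    obtain ⟨t, ht⟩ := nonempty_iff_ne_empty.2 hT
    refine sum_eq_zero fun C' hC' => ?_
    rw [sc_lin_pow, sc_lin_pow]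
    by_cases h1 : Sum.inr t ∈ C'
    · rw [prod_eq_zero h1 (by simp [bu]), mul_zero, ite_self, zero_mul]
    · rw [prod_eq_zero (i := Sum.inr t) (s := univ.disjSum T \ C')
        (mem_sdiff.2 ⟨by simpa using ht, h1⟩) (by simp [bw]), mul_zero, ite_self, mul_zero]

end

variable {ι : Type} {α β : Type} [Fintype α] [Fintype β] [DecidableEq α] [DecidableEq β]

/-- **G6**: the base net (row ports `α`, column ports `β`). -/
theorem Rep.base (r : ℕ) (hr : 1 ≤ r) :
    ∃ K : ℂ, K ≠ 0 ∧ Rep (ι := Option ι) α β r
      (fun S T => if S.card = r ∧ T.card = r then C ((r.factorial : ℂ) ^ 2)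
        else if S = ∅ ∧ T = ∅ then C K * X none else 0) := by
  obtain ⟨s, rfl⟩ : ∃ s, r = s + 1 := ⟨r - 1, by omega⟩
  obtain ⟨ω, hω⟩ : ∃ ω : ℂ, IsPrimitiveRoot ω (s + 1) :=
    ⟨_, Complex.isPrimitiveRoot_exp (s + 1) (by omega)⟩
  refine ⟨-(-1) ^ (s + 1) * ((s + 1).factorial : ℂ), ?_, Fin (s + 1), Fin (s + 1), inferInstance,
    inferInstance, inferInstance, inferInstance, Fintype.card_fin _, Fintype.card_fin _, ?_⟩
  · exact mul_ne_zero (neg_ne_zero.2 (pow_ne_zero _ (neg_ne_zero.2 one_ne_zero)))
      (Nat.cast_ne_zero.2 (Nat.factorial_ne_zero _))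
  refine ⟨Sum.elim (fun p => Sum.elim (fun q => C (ω ^ (p : ℕ)) *
      (if q = Fin.last s then X none else 1)) (fun _ => 1))
    (fun _ => Sum.elim (fun _ => 1) (fun _ => 0)), ?_, ?_⟩
  · intro x y
    rcases x with x | x <;> rcases y with y | y <;> simp only [Sum.elim_inl, Sum.elim_inr]
    · refine (totalDegree_mul _ _).trans ?_
      rw [totalDegree_C, zero_add]
      split_ifs
      · rw [totalDegree_X]
      · rw [totalDegree_one]; exact Nat.zero_le _
    · rw [totalDegree_one]; exact Nat.zero_le _
    · rw [totalDegree_one]; exact Nat.zero_le _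
    · rw [totalDegree_zero]; exact Nat.zero_le _
  · intro S T
    have h1 : ∀ p : Fin (s + 1), lin ((Sum.elim (fun p : Fin (s + 1) => Sum.elim
        (fun q : Fin (s + 1) => C (ω ^ (p : ℕ)) *
        (if q = Fin.last s then X none else 1)) (fun _ : β => 1))
        (fun _ : α => Sum.elim (fun _ => 1) (fun _ => 0)) :
          Fin (s + 1) ⊕ α → Fin (s + 1) ⊕ β → MvPolynomial (Option ι) ℂ) (Sum.inl p)) =
        lin (bv s) + (C (C ω)) ^ (p : ℕ) * lin (bu s (X none)) := by
      intro p
      unfold lin
      rw [mul_sum, ← sum_add_distrib]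
      refine sum_congr rfl fun j _ => ?_
      rcases j with j | j
      · simp only [Sum.elim_inl, bu, bv, map_mul, map_pow, map_zero, zero_mul, zero_add]
        ring
      · simp [bu, bv]
    have h2 : ∀ a : α, lin ((Sum.elim (fun p : Fin (s + 1) => Sum.elim
        (fun q : Fin (s + 1) => C (ω ^ (p : ℕ)) *
        (if q = Fin.last s then X none else 1)) (fun _ : β => 1))
        (fun _ : α => Sum.elim (fun _ => 1) (fun _ => 0)) :
          Fin (s + 1) ⊕ α → Fin (s + 1) ⊕ β → MvPolynomial (Option ι) ℂ) (Sum.inr a)) =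
        lin (bw s) := fun a => rfl
    have hprim0 : IsPrimitiveRoot (C ω : MvPolynomial (Option ι) ℂ) (s + 1) :=
      IsPrimitiveRoot.map_of_injective (f := (C : ℂ →+* MvPolynomial (Option ι) ℂ)) hω
        (C_injective (Option ι) ℂ)
    have hprim : IsPrimitiveRoot (C (C ω) : MvPolynomial (Fin (s + 1) ⊕ β)
        (MvPolynomial (Option ι) ℂ)) (s + 1) :=
      IsPrimitiveRoot.map_of_injective (f := (C : MvPolynomial (Option ι) ℂ →+*
        MvPolynomial (Fin (s + 1) ⊕ β) (MvPolynomial (Option ι) ℂ))) hprim0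
        (C_injective (Fin (s + 1) ⊕ β) (MvPolynomial (Option ι) ℂ))
    unfold pm
    change sc _ _ = _
    rw [prod_disjSum, prod_congr rfl (fun p _ => h1 p), prod_congr rfl (fun a _ => h2 a),
      prod_omega (Nat.succ_pos s) hprim, prod_const, sub_mul]
    have hneg : ((-lin (bu s (X none : MvPolynomial (Option ι) ℂ))) ^ (s + 1) *
          lin (bw s) ^ S.card :
        MvPolynomial (Fin (s + 1) ⊕ β) (MvPolynomial (Option ι) ℂ)) =
        C (C ((-1) ^ (s + 1))) * (lin (bu s (X none : MvPolynomial (Option ι) ℂ)) ^ (s + 1) *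
          lin (bw s) ^ S.card) := by
      rw [neg_pow]
      simp only [map_pow, map_neg, map_one]
      ring
    have hsub : ∀ P Q : MvPolynomial (Fin (s + 1) ⊕ β) (MvPolynomial (Option ι) ℂ),
        sc (P - Q) (univ.disjSum T) = sc P (univ.disjSum T) - sc Q (univ.disjSum T) :=
      fun P Q => by unfold sc; exact coeff_sub _ _ _ _
    rw [hsub, hneg, sc_C_mul, sc_vw, sc_uw]
    dsimp only
    by_cases h3 : S.card = s + 1 ∧ T.card = s + 1
    · rw [if_pos h3, if_pos h3, if_neg, mul_zero, sub_zero, map_pow, map_natCast]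
      intro h
      omega
    · rw [if_neg h3, if_neg h3]
      by_cases h4 : S = ∅ ∧ T = ∅
      · rw [if_pos h4, if_pos ⟨card_eq_zero.2 h4.1, h4.2⟩]
        simp only [map_mul, map_neg, map_pow, map_one, map_natCast]
        ring
      · rw [if_neg h4, if_neg (fun h => h4 ⟨card_eq_zero.1 h.1, h.2⟩), mul_zero, sub_zero]

end L5helper42.NC
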