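import Pool.Agent.L5helper96.Cub.Net
import Pool.Agent.L5helper58.NC.Multi

/-!
CUBIC, part N4: the sum over the colours as a multiplier of nets.
-/

set_option autoImplicit false

namespace L5helper96.Cub

open Finset MvPolynomial L5helper59.DC L5lead.NC L5helper34.NC

/-- by induction on `L` from `Net.step` -/
theorem Net.multi (hG : GateStmt) (L : ℕ) : ∀ {V : Type} [DecidableEq V] (F : Finset V)
    (θ : V → ℂ) (_ : ∀ v, θ v ≠ 0) (τ : ℂ) (_ : τ ≠ 0),
    Net V (fun x => ∑ z ∈ range (2 ^ L), τ ^ (z ^ 2) * (∏ v ∈ F, if x v then θ v else 1) ^ z)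
      (2 * L * F.card + L ^ 2 + L) := by
  induction L with
  | zero =>
    intro V _ F θ _ τ _
    exact (Net.one V).congr (fun x => by simp) (by simp)
  | succ L ih =>
    intro V _ F θ hθ τ hτ
    have h1 := ih (V := Option V) F.insertNone (fun o => o.elim (τ ^ 4) fun v => θ v ^ 2)
      (by rintro (_ | v) <;> simp [hτ, hθ]) (τ ^ 4) (pow_ne_zero _ hτ)
    refine (Net.step hG h1 F θ hθ τ).congr (fun x => ?_) ?_
    · rw [L5helper58.NC.sum_range_two_pow_succ, mul_sum, ← sum_add_distrib]
      refine sum_congr rfl fun z _ => ?_
      rw [prod_insertNone, prod_insertNone]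
      have h2 : ∀ b : Bool, (∏ v ∈ F, if cons b x (some v) = true then θ v ^ 2 else 1) =
          (∏ v ∈ F, if x v = true then θ v else 1) ^ 2 := by
        intro b
        rw [← prod_pow]
        refine prod_congr rfl fun v _ => ?_
        have : cons b x (some v) = x v := rfl
        rw [this]
        split_ifs <;> simp
      simp only [Option.elim_some, Option.elim_none, h2]
      have h3 : cons false x none = false := rfl
      have h4 : cons true x none = true := rfl
      rw [h3, h4]
      simp only [if_true, Bool.false_eq_true, if_false]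
      ring
    · rw [card_insertNone]
      ring

end L5helper96.Cub
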